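import Pool.Agent.H84.Sym.Defs2
import Pool.Agent.H85.Sym.G2a
import Pool.Agent.H91.Sym.P2
import Pool.Agent.H92.Sym.P4a
import Pool.Agent.H91.Sym.P3a

/-! Module P4b of project SYM2: the marginal potential. -/

set_option autoImplicit false
set_option linter.unusedSectionVars false
set_option linter.unusedVariables false

open MeasureTheory Set Filter Topology
open scoped ContDiff Pointwise

namespace Pool.Agent.H84.Sym

open Pool.Agent.H84

universe v

variable {E : Type v} [NormedAddCommGroup E] [InnerProductSpace ℝ E]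
    [FiniteDimensional ℝ E] [MeasurableSpace E] [BorelSpace E]

namespace P4bx

open P2x (GC)

section Sec

variable {U : E → ℝ} {t C : ℝ}

theorem pot_sec (S : Submodule ℝ E) (hU : Pot U t C) (z : E) :
    Pot (sec S U z) t (C * (1 + ‖z‖)) := G2aux.pot_VV hU S z

theorem gc_sec (S : Submodule ℝ E) {F : E → ℝ} (hF : GC F) (z : E) :
    GC (fun x : S => F ((x : E) + z)) := by
  obtain ⟨hc, hg⟩ := hF
  obtain ⟨A, B, hA, hB, h⟩ := P2x.Gr.norm hg
  refine ⟨hc.comp (by fun_prop), A * Real.exp (B * ‖z‖), B, fun x => (h _).trans ?_⟩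
  rw [mul_assoc, ← Real.exp_add]
  apply mul_le_mul_of_nonneg_left _ hA
  apply Real.exp_le_exp.2
  have h1 : ‖(x : E) + z‖ ≤ ‖z‖ + ‖x‖ := by
    rw [add_comm ‖z‖]; exact norm_add_le _ _
  rw [← mul_add]
  exact mul_le_mul_of_nonneg_left h1 hB

theorem pint_eq (S : Submodule ℝ E) (hU : Pot U t C) (F : E → ℝ) (z : Sᗮ) :
    pint S U F z = ∫ x, F ((x : E) + (z : E)) ∂(mu (sec S U (z : E))) := by
  rw [integral_mu (pot_sec S hU (z : E)).smooth.continuous]
  rfl

theorem rho_pos (S : Submodule ℝ E) (hU : Pot U t C) (z : Sᗮ) : 0 < pint S U (fun _ => 1) z := by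
  rw [pint_eq S hU]
  have h := mu_univ_pos (pot_sec S hU (z : E)).smooth.continuous (isFinite_mu (pot_sec S hU (z : E)))
  simpa using h

theorem int_sec (S : Submodule ℝ E) (hU : Pot U t C) {F : E → ℝ} (hF : GC F) (z : Sᗮ) :
    Integrable (fun x : S => F ((x : E) + (z : E))) (mu (sec S U (z : E))) :=
  P2x.GC.integrable (gc_sec S hF (z : E)) (pot_sec S hU (z : E))

theorem pint_sub (S : Submodule ℝ E) (hU : Pot U t C) {F G : E → ℝ} (hF : GC F) (hG : GC G)
    (z : Sᗮ) : pint S U (fun x => F x - G x) z = pint S U F z - pint S U G z := by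
  rw [pint_eq S hU, pint_eq S hU, pint_eq S hU]
  exact integral_sub (int_sec S hU hF z) (int_sec S hU hG z)

theorem pint_neg (S : Submodule ℝ E) (F : E → ℝ) (z : Sᗮ) :
    pint S U (fun x => -F x) z = -pint S U F z := by
  unfold pint
  rw [← integral_neg]
  refine integral_congr_ae (Eventually.of_forall fun x => ?_)
  simp only [neg_mul]

theorem gc_D (hU : Pot U t C) (e : E) : GC (D e U) := by
  have hC : 0 ≤ C := by
    have := (norm_nonneg _).trans (hU.grad 0)
    simpa using this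
  refine ⟨(contDiff_D (m := 0) (hU.smooth.of_le (by norm_num : (1 : WithTop ℕ∞) ≤ 2)) (by norm_num)
    e).continuous, C * ‖e‖, 1, fun x => ?_⟩
  have h1 : |D e U x| ≤ ‖fderiv ℝ U x‖ * ‖e‖ := (fderiv ℝ U x).le_opNorm e
  have h2 := Real.add_one_le_exp ‖x‖
  calc |D e U x| ≤ ‖fderiv ℝ U x‖ * ‖e‖ := h1
    _ ≤ (C * (1 + ‖x‖)) * ‖e‖ := mul_le_mul_of_nonneg_right (hU.grad x) (norm_nonneg e)
    _ = C * ‖e‖ * (‖x‖ + 1) := by ring
    _ ≤ C * ‖e‖ * Real.exp (1 * ‖x‖) := by
      rw [one_mul]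
      exact mul_le_mul_of_nonneg_left h2 (by positivity)

theorem pot_const {F : Type*} [NormedAddCommGroup F] [InnerProductSpace ℝ F] {V : F → ℝ} {t C : ℝ}
    (hV : Pot V t C) (c : ℝ) : Pot (fun x => V x + c) t C := by
  have e : fderiv ℝ (fun x => V x + c) = fderiv ℝ V := by
    ext x : 1
    exact fderiv_add_const c
  exact ⟨hV.smooth.add contDiff_const, hV.pos, by rw [e]; exact hV.hess, by rw [e]; exact hV.grad⟩

/-- The normalised section. -/
noncomputable def nsec (S : Submodule ℝ E) (U : E → ℝ) (z : Sᗮ) (x : S) : ℝ :=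
  sec S U (z : E) x + Real.log (pint S U (fun _ => 1) z)

theorem pot_nsec (S : Submodule ℝ E) (hU : Pot U t C) (z : Sᗮ) :
    Pot (nsec S U z) t (C * (1 + ‖(z : E)‖)) := pot_const (pot_sec S hU (z : E)) _

theorem int_nsec (S : Submodule ℝ E) (hU : Pot U t C) (F : E → ℝ) (z : Sᗮ) :
    ∫ x : S, F ((x : E) + (z : E)) ∂(mu (nsec S U z)) = cav S U F z := by
  rw [integral_mu (pot_nsec S hU z).smooth.continuous]
  have h0 := rho_pos S hU z
  have h : ∀ x : S, F ((x : E) + (z : E)) * Real.exp (-nsec S U z x) =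
      (pint S U (fun _ => 1) z)⁻¹ * (F ((x : E) + (z : E)) *
        Real.exp (-U ((x : E) + (z : E)))) := by
    intro x
    unfold nsec
    rw [neg_add, Real.exp_add, Real.exp_neg (Real.log _), Real.exp_log h0]
    unfold sec
    ring
  simp only [h]
  rw [integral_const_mul]
  unfold cav
  rw [div_eq_inv_mul]
  rfl

theorem prob_nsec (S : Submodule ℝ E) (hU : Pot U t C) (z : Sᗮ) :
    IsProbabilityMeasure (mu (nsec S U z)) := by
  rw [isProbabilityMeasure_iff_real]
  have h := int_nsec S hU (fun _ => 1) z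
  unfold cav at h
  rw [div_self (rho_pos S hU z).ne'] at h
  simpa using h

end Sec

theorem var_nonneg {X : Type*} [MeasurableSpace X] {μ : Measure X} [IsProbabilityMeasure μ]
    {k : X → ℝ} (i1 : Integrable k μ) (i2 : Integrable (fun x => k x ^ 2) μ) :
    0 ≤ (∫ x, k x ^ 2 ∂μ) - (∫ x, k x ∂μ) ^ 2 := by
  set m := ∫ x, k x ∂μ with hm
  have h3 : 0 ≤ ∫ x, (k x - m) ^ 2 ∂μ := integral_nonneg fun x => sq_nonneg _
  have h4 : ∫ x, (k x - m) ^ 2 ∂μ = (∫ x, k x ^ 2 ∂μ) - m ^ 2 := by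
    have h5 : ∀ x, (k x - m) ^ 2 = (k x ^ 2 - 2 * m * k x) + m ^ 2 := fun x => by ring
    simp only [h5]
    have i3 : Integrable (fun x => k x ^ 2 - 2 * m * k x) μ := i2.sub (i1.const_mul _)
    rw [integral_add i3 (integrable_const _), integral_sub i2 (i1.const_mul _),
      integral_const_mul, ← hm]
    simp
    ring
  rw [h4] at h3
  exact h3

theorem grad_lin {H : Type*} [NormedAddCommGroup H] [InnerProductSpace ℝ H] {W : H → ℝ}
    {c : ℝ} (hc : 0 ≤ c) (hd : Differentiable ℝ (fderiv ℝ W))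
    (hnorm : ∀ z : H, ‖fderiv ℝ (fderiv ℝ W) z‖ ≤ c) (z : H) :
    ‖fderiv ℝ W z‖ ≤ (‖fderiv ℝ W 0‖ + c) * (1 + ‖z‖) := by
  have hmv := convex_univ.norm_image_sub_le_of_norm_fderiv_le (𝕜 := ℝ)
    (f := fderiv ℝ W) (fun x _ => hd x) (fun x _ => hnorm x) (mem_univ (0 : H)) (mem_univ z)
  rw [sub_zero] at hmv
  have h1 : ‖fderiv ℝ W z‖ ≤ ‖fderiv ℝ W 0‖ + ‖fderiv ℝ W z - fderiv ℝ W 0‖ := by
    have := norm_add_le (fderiv ℝ W 0) (fderiv ℝ W z - fderiv ℝ W 0)
    simpa using this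
  have h2 : 0 ≤ ‖fderiv ℝ W 0‖ * ‖z‖ := by positivity
  nlinarith

theorem bilin_bound {H : Type*} [NormedAddCommGroup H] [InnerProductSpace ℝ H]
    (B : H →L[ℝ] H →L[ℝ] ℝ) (hs : ∀ u v, B u v = B v u) {c : ℝ} (h0 : ∀ v, 0 ≤ B v v)
    (h1 : ∀ v, B v v ≤ c * ‖v‖ ^ 2) (hc : 0 ≤ c) : ‖B‖ ≤ c := by
  refine ContinuousLinearMap.opNorm_le_bound _ hc fun u => ?_
  refine ContinuousLinearMap.opNorm_le_bound _ (by positivity) fun v => ?_
  have key : (B u v) ^ 2 ≤ B u u * B v v := by
    have hq : ∀ s : ℝ, 0 ≤ B v v * (s * s) + 2 * B u v * s + B u u := by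
      intro s
      have := h0 (u + s • v)
      simp only [map_add, map_smul, add_apply, smul_apply, smul_eq_mul] at this
      rw [hs v u] at this
      linarith
    have := discrim_le_zero hq
    unfold discrim at this
    nlinarith
  rw [Real.norm_eq_abs]
  have h2 : (B u v) ^ 2 ≤ (c * ‖u‖ * ‖v‖) ^ 2 := by
    calc (B u v) ^ 2 ≤ B u u * B v v := key
      _ ≤ (c * ‖u‖ ^ 2) * (c * ‖v‖ ^ 2) :=
        mul_le_mul (h1 u) (h1 v) (h0 v) (by positivity)
      _ = _ := by ring
  exact abs_le_of_sq_le_sq h2 (by positivity)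

end P4bx

open P4bx P2x

theorem mg_spec (S : Submodule ℝ E) {U : E → ℝ} {t C τ C₂ : ℝ} (hU : Pot U t C)
    (hU2 : ∀ x, ‖fderiv ℝ (fderiv ℝ U) x‖ ≤ C₂) (hτ : 0 < τ)
    (hτU : ∀ x v : E, τ * ‖Sᗮ.orthogonalProjectionOnto v‖ ^ 2 ≤ fderiv ℝ (fderiv ℝ U) x v v) :
    (∃ C' : ℝ, Pot (mg S U) τ C') ∧
    (∀ z ν : Sᗮ, D ν (mg S U) z = cav S U (D (ν : E) U) z) ∧
    (∀ z ν : Sᗮ, fderiv ℝ (fderiv ℝ (mg S U)) z ν ν =
      cav S U (fun x => fderiv ℝ (fderiv ℝ U) x ν ν) z -
        (cav S U (fun x => (D (ν : E) U x) ^ 2) z - (cav S U (D (ν : E) U) z) ^ 2)) := by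
  have hC2 : 0 ≤ C₂ := (norm_nonneg (fderiv ℝ (fderiv ℝ U) 0)).trans (hU2 0)
  have hρ0 := rho_pos S hU
  -- derivatives of rho
  obtain ⟨hρ1, hDρ⟩ := diff_pint S (F := fun _ => 1) hU contDiff_const (Gr.of_bdd fun _ => le_rfl)
    (by simp only [fderiv_fun_const, Pi.zero_apply, norm_zero]; exact Gr.of_bdd fun _ => le_rfl)
  have hDρ' : ∀ z ν : Sᗮ, D ν (pint S U (fun _ => 1)) z = -pint S U (D (ν : E) U) z := by
    intro z ν
    rw [hDρ, ← pint_neg]
    congr 1
    funext x
    simp [D]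
  have hDU1 : ∀ e : E, ContDiff ℝ 1 (D e U) := fun e => contDiff_D hU.smooth (by norm_num) e
  have hDUg : ∀ e : E, GC (D e U) := fun e => gc_D hU e
  have hfd : ∀ e x, fderiv ℝ (D e U) x = (ContinuousLinearMap.apply ℝ ℝ e).comp
      (fderiv ℝ (fderiv ℝ U) x) := by
    intro e x
    have h1 : DifferentiableAt ℝ (fderiv ℝ U) x :=
      ((hU.smooth.fderiv_right (m := 1) (by norm_num)).differentiable (by norm_num)) x
    exact ((ContinuousLinearMap.apply ℝ ℝ e).hasFDerivAt.comp x h1.hasFDerivAt).fderiv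
  have hDUg' : ∀ e : E, Gr (fun x => ‖fderiv ℝ (D e U) x‖) := by
    intro e
    refine Gr.of_bdd (A := C₂ * ‖e‖) fun x => ?_
    rw [abs_of_nonneg (norm_nonneg _)]
    refine ContinuousLinearMap.opNorm_le_bound _ (by positivity) fun v => ?_
    rw [hfd]
    have h1 : ‖fderiv ℝ (fderiv ℝ U) x v e‖ ≤ C₂ * ‖v‖ * ‖e‖ := by
      refine ((fderiv ℝ (fderiv ℝ U) x v).le_opNorm e).trans ?_
      apply mul_le_mul_of_nonneg_right _ (norm_nonneg e)
      exact ((fderiv ℝ (fderiv ℝ U) x).le_opNorm v).trans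
        (mul_le_mul_of_nonneg_right (hU2 x) (norm_nonneg v))
    calc _ = ‖fderiv ℝ (fderiv ℝ U) x v e‖ := rfl
      _ ≤ C₂ * ‖v‖ * ‖e‖ := h1
      _ = _ := by ring
  have hP1 : ∀ e : E, ContDiff ℝ 1 (pint S U (D e U)) := fun e =>
    (diff_pint S hU (hDU1 e) (hDUg e).2 (hDUg' e)).1
  have hρ2 : ContDiff ℝ 2 (pint S U (fun _ => 1)) := by
    rw [show (2 : WithTop ℕ∞) = 1 + 1 by norm_num, contDiff_succ_iff_fderiv_apply]
    refine ⟨hρ1.differentiable (by norm_num), by simp, fun ν => ?_⟩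
    have : (fun z => fderiv ℝ (pint S U (fun _ => 1)) z ν) = fun z => -pint S U (D (ν : E) U) z :=
      funext fun z => hDρ' z ν
    rw [this]
    exact (hP1 _).neg
  have hW2 : ContDiff ℝ 2 (mg S U) := (hρ2.log fun z => (hρ0 z).ne').neg
  have hDW : ∀ z ν : Sᗮ, D ν (mg S U) z = cav S U (D (ν : E) U) z := by
    intro z ν
    have h1 : HasFDerivAt (pint S U (fun _ => 1)) (fderiv ℝ (pint S U (fun _ => 1)) z) z :=
      (hρ1.differentiable (by norm_num) z).hasFDerivAt
    have h2 := (h1.log (hρ0 z).ne').neg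
    have h3 : fderiv ℝ (mg S U) z = -((pint S U (fun _ => 1) z)⁻¹ •
      fderiv ℝ (pint S U (fun _ => 1)) z) := h2.fderiv
    have h4 : fderiv ℝ (pint S U (fun _ => 1)) z ν = -pint S U (D (ν : E) U) z := hDρ' z ν
    simp only [D]
    rw [h3, neg_apply, smul_apply, h4]
    unfold cav
    simp only [smul_eq_mul]
    rw [div_eq_inv_mul]
    ring
  have hqc : ∀ e : E, GC (fun x => fderiv ℝ (fderiv ℝ U) x e e) := by
    intro e
    constructor
    · have h1 : Continuous (fderiv ℝ (fderiv ℝ U)) :=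
        (hU.smooth.fderiv_right (m := 1) (by norm_num)).continuous_fderiv (by norm_num)
      exact (h1.clm_apply continuous_const).clm_apply continuous_const
    · refine Gr.of_bdd (A := C₂ * ‖e‖ * ‖e‖) fun x => ?_
      refine ((fderiv ℝ (fderiv ℝ U) x e).le_opNorm e).trans ?_
      apply mul_le_mul_of_nonneg_right _ (norm_nonneg e)
      exact ((fderiv ℝ (fderiv ℝ U) x).le_opNorm e).trans
        (mul_le_mul_of_nonneg_right (hU2 x) (norm_nonneg e))
  have hDDW : ∀ z ν : Sᗮ, fderiv ℝ (fderiv ℝ (mg S U)) z ν ν =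
      cav S U (fun x => fderiv ℝ (fderiv ℝ U) x ν ν) z -
        (cav S U (fun x => (D (ν : E) U x) ^ 2) z - (cav S U (D (ν : E) U) z) ^ 2) := by
    intro z ν
    rw [← D_D hW2]
    have e1 : D ν (mg S U) = fun z => pint S U (D (ν : E) U) z * (pint S U (fun _ => 1) z)⁻¹ := by
      funext z
      rw [hDW]
      rfl
    have d1 : DifferentiableAt ℝ (pint S U (D (ν : E) U)) z :=
      (hP1 _).differentiable (by norm_num) z
    have d2' : HasFDerivAt (fun z => (pint S U (fun _ => 1) z)⁻¹)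
        (-((pint S U (fun _ => 1) z) ^ 2)⁻¹ • fderiv ℝ (pint S U (fun _ => 1)) z) z :=
      (hasDerivAt_inv (hρ0 z).ne').comp_hasFDerivAt z
        (hρ1.differentiable (by norm_num) z).hasFDerivAt
    rw [e1, D_mul d1 d2'.differentiableAt]
    have e2 : D ν (fun z => (pint S U (fun _ => 1) z)⁻¹) z =
        ((pint S U (fun _ => 1) z) ^ 2)⁻¹ * pint S U (D (ν : E) U) z := by
      have h4 : fderiv ℝ (pint S U (fun _ => 1)) z ν = -pint S U (D (ν : E) U) z := hDρ' z ν
      simp only [D]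
      rw [d2'.fderiv, smul_apply, h4]
      simp only [smul_eq_mul]
      ring
    have e3 : D ν (pint S U (D (ν : E) U)) z =
        pint S U (fun x => fderiv ℝ (fderiv ℝ U) x ν ν) z -
          pint S U (fun x => (D (ν : E) U x) ^ 2) z := by
      rw [(diff_pint S hU (hDU1 _) (hDUg _).2 (hDUg' _)).2 z ν, ← pint_sub S hU (hqc _)
        (hDUg _).sq]
      congr 1
      funext x
      rw [D_D hU.smooth]
      ring
    rw [e2, e3]
    unfold cav
    have := (hρ0 z).ne'
    field_simp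
    ring
  have hlow : ∀ z ν : Sᗮ, τ * ‖ν‖ ^ 2 ≤ fderiv ℝ (fderiv ℝ (mg S U)) z ν ν := by
    intro z ν
    rw [hDDW]
    have := prob_nsec S hU z
    have hk1 : ContDiff ℝ 1 (fun x : S => D (ν : E) U ((x : E) + (z : E))) :=
      G2aux.contDiff_shift S (z : E) (hDU1 _)
    have hfk : ∀ x η : S, fderiv ℝ (fun x : S => D (ν : E) U ((x : E) + (z : E))) x η =
        fderiv ℝ (fderiv ℝ U) ((x : E) + (z : E)) (η : E) (ν : E) := by
      intro x η
      rw [(G2aux.hasFDerivAt_shift S (z : E)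
        ((hDU1 (ν : E)).differentiable (by norm_num) _)).fderiv, hfd]
      rfl
    have hfV : ∀ x η : S, fderiv ℝ (fderiv ℝ (nsec S U z)) x η η =
        fderiv ℝ (fderiv ℝ U) ((x : E) + (z : E)) (η : E) (η : E) := by
      intro x η
      have e : fderiv ℝ (nsec S U z) = fun s : S =>
          (fderiv ℝ U ((s : E) + (z : E))).comp S.subtypeL := by
        ext s : 1
        have h1 : fderiv ℝ (nsec S U z) s = fderiv ℝ (sec S U (z : E)) s := by
          unfold nsec
          exact fderiv_add_const _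
        rw [h1]
        exact G2aux.fderiv_VV hU S (z : E) s
      have hd : DifferentiableAt ℝ (fderiv ℝ U) ((x : E) + (z : E)) :=
        (hU.smooth.fderiv_right (m := 1) (by norm_num)).differentiable (by norm_num) _
      have h2 := G2aux.hasFDerivAt_shift S (z : E) hd
      have h3 : HasFDerivAt (fun s : S => (fderiv ℝ U ((s : E) + (z : E))).comp S.subtypeL)
          (((ContinuousLinearMap.compL ℝ S E ℝ).flip S.subtypeL).comp
            ((fderiv ℝ (fderiv ℝ U) ((x : E) + (z : E))).comp S.subtypeL)) x :=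
        ((ContinuousLinearMap.compL ℝ S E ℝ).flip S.subtypeL).hasFDerivAt.comp x h2
      rw [e, h3.fderiv]
      rfl
    have hgq := gc_sec S (hqc (ν : E)) (z : E)
    have hgk := gc_sec S (hDUg (ν : E)) (z : E)
    have main := sec_bl (s := τ * ‖ν‖ ^ 2) (pot_nsec S hU z) hk1 hgk.2 hgq.1 hgq.2 (by
      intro x η
      rw [hfk, hfV]
      have h1 := hτU ((x : E) + (z : E)) ((ν : E) - (η : E))
      have h2 : Sᗮ.orthogonalProjectionOnto ((ν : E) - (η : E)) = ν := by
        rw [map_sub, Submodule.orthogonalProjectionOnto_mem_subspace_eq_self]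
        have : Sᗮ.orthogonalProjectionOnto (η : E) = 0 := by
          rw [Submodule.orthogonalProjectionOnto_eq_zero_iff]
          exact Submodule.le_orthogonal_orthogonal S η.2
        rw [this, sub_zero]
      rw [h2] at h1
      have h3 := (hU.smooth.contDiffAt.isSymmSndFDerivAt
        (x := (x : E) + (z : E)) (by simp)).eq (ν : E) (η : E)
      simp only [map_sub, sub_apply] at h1
      linarith)
    rw [int_nsec S hU (fun x => fderiv ℝ (fderiv ℝ U) x ν ν) z, int_nsec S hU (D (ν : E) U) z,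
      int_nsec S hU (fun x => (D (ν : E) U x) ^ 2) z] at main
    linarith
  have hup : ∀ z ν : Sᗮ, fderiv ℝ (fderiv ℝ (mg S U)) z ν ν ≤ C₂ * ‖ν‖ ^ 2 := by
    intro z ν
    rw [hDDW]
    have := prob_nsec S hU z
    have h1 : cav S U (fun x => fderiv ℝ (fderiv ℝ U) x ν ν) z ≤ C₂ * ‖ν‖ ^ 2 := by
      rw [← int_nsec S hU]
      have hi : Integrable (fun x : S => fderiv ℝ (fderiv ℝ U) ((x : E) + (z : E)) ν ν)
          (mu (nsec S U z)) := (gc_sec S (hqc (ν : E)) (z : E)).integrable (pot_nsec S hU z)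
      have h2 := integral_mono hi (integrable_const (C₂ * ‖ν‖ ^ 2)) (fun x => by
        have h3 : fderiv ℝ (fderiv ℝ U) ((x : E) + (z : E)) ν ν ≤ C₂ * ‖(ν : E)‖ * ‖(ν : E)‖ := by
          refine (le_abs_self _).trans (((fderiv ℝ (fderiv ℝ U) _ (ν : E)).le_opNorm (ν : E)).trans
            ?_)
          apply mul_le_mul_of_nonneg_right _ (norm_nonneg _)
          exact ((fderiv ℝ (fderiv ℝ U) _).le_opNorm (ν : E)).trans
            (mul_le_mul_of_nonneg_right (hU2 _) (norm_nonneg _))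
        have h4 : C₂ * ‖(ν : E)‖ * ‖(ν : E)‖ = C₂ * ‖ν‖ ^ 2 := by
          rw [Submodule.coe_norm]; ring
        rw [← h4]
        exact h3)
      simpa using h2
    have h2 : 0 ≤ cav S U (fun x => (D (ν : E) U x) ^ 2) z - (cav S U (D (ν : E) U) z) ^ 2 := by
      rw [← int_nsec S hU, ← int_nsec S hU]
      have hgk := gc_sec S (hDUg (ν : E)) (z : E)
      have i1 := hgk.integrable (pot_nsec S hU z)
      have i2 := hgk.sq.integrable (pot_nsec S hU z)
      exact P4bx.var_nonneg i1 i2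
    linarith
  refine ⟨?_, hDW, hDDW⟩
  refine ⟨‖fderiv ℝ (mg S U) 0‖ + C₂, hW2, hτ, hlow, fun z => ?_⟩
  exact grad_lin hC2 ((hW2.fderiv_right (m := 1) (by norm_num)).differentiable (by norm_num))
    (fun z => bilin_bound _ (fun u v => (hW2.contDiffAt.isSymmSndFDerivAt (by simp)).eq u v)
      (fun v => le_trans (by positivity) (hlow z v)) (hup z) hC2) z

/-- Conditional means of compactly supported functions. -/
theorem cav_diff (S : Submodule ℝ E) {U f : E → ℝ} {t C : ℝ} (hU : Pot U t C)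
    (hU2 : Gr (fun x => ‖fderiv ℝ (fderiv ℝ U) x‖))
    (hf : ContDiff ℝ 1 f) (hc : HasCompactSupport f) :
    ContDiff ℝ 1 (cav S U f) ∧ HasCompactSupport (cav S U f) ∧
    ∀ (z ν : Sᗮ), D ν (cav S U f) z = cav S U (D (ν : E) f) z -
      (cav S U (fun x => f x * D (ν : E) U x) z - cav S U f z * cav S U (D (ν : E) U) z) := by
  have hρ0 := rho_pos S hU
  obtain ⟨hρ1, hDρ⟩ := diff_pint S (F := fun _ => 1) hU contDiff_const (Gr.of_bdd fun _ => le_rfl)
    (by simp only [fderiv_fun_const, Pi.zero_apply, norm_zero]; exact Gr.of_bdd fun _ => le_rfl)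
  have hDρ' : ∀ z ν : Sᗮ, D ν (pint S U (fun _ => 1)) z = -pint S U (D (ν : E) U) z := by
    intro z ν
    rw [hDρ, ← pint_neg]
    congr 1
    funext x
    simp [D]
  have hfg : GC f := by
    obtain ⟨A, hA⟩ := hf.continuous.bounded_above_of_compact_support hc
    exact ⟨hf.continuous, Gr.of_bdd hA⟩
  have hfg' : Gr (fun x => ‖fderiv ℝ f x‖) := by
    obtain ⟨A, hA⟩ := (hf.continuous_fderiv (by norm_num)).bounded_above_of_compact_support
      (hc.fderiv (𝕜 := ℝ))
    exact Gr.of_bdd (A := A) fun x => by rw [abs_of_nonneg (norm_nonneg _)]; exact hA x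
  have hDfg : ∀ e : E, GC (D e f) := by
    intro e
    have h1 := (contDiff_D (m := 0) hf (by norm_num) e).continuous
    obtain ⟨A, hA⟩ := h1.bounded_above_of_compact_support (hcs_D hc e)
    exact ⟨h1, Gr.of_bdd hA⟩
  obtain ⟨hf1, hDf⟩ := diff_pint S hU hf hfg.2 hfg'
  have hcav : cav S U f = fun z => pint S U f z * (pint S U (fun _ => 1) z)⁻¹ := by
    funext z
    rfl
  refine ⟨?_, ?_, fun z ν => ?_⟩
  · rw [hcav]
    exact hf1.mul (hρ1.inv fun z => (hρ0 z).ne')
  · refine HasCompactSupport.intro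
      (K := (Sᗮ.orthogonalProjectionOnto) '' (tsupport f)) (hc.isCompact.image
      (Sᗮ.orthogonalProjectionOnto).continuous) fun z hz => ?_
    have h1 : ∀ x : S, f ((x : E) + (z : E)) = 0 := by
      intro x
      by_contra hne
      apply hz
      refine ⟨(x : E) + (z : E), subset_tsupport f hne, ?_⟩
      rw [map_add, Submodule.orthogonalProjectionOnto_mem_subspace_eq_self]
      have : Sᗮ.orthogonalProjectionOnto (x : E) = 0 := by
        rw [Submodule.orthogonalProjectionOnto_eq_zero_iff]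
        exact Submodule.le_orthogonal_orthogonal S x.2
      rw [this, zero_add]
    have h2 : pint S U f z = 0 := by
      unfold pint
      simp [h1]
    unfold cav
    rw [h2, zero_div]
  · have d1 : DifferentiableAt ℝ (pint S U f) z := hf1.differentiable (by norm_num) z
    have d2' : HasFDerivAt (fun z => (pint S U (fun _ => 1) z)⁻¹)
        (-((pint S U (fun _ => 1) z) ^ 2)⁻¹ • fderiv ℝ (pint S U (fun _ => 1)) z) z :=
      (hasDerivAt_inv (hρ0 z).ne').comp_hasFDerivAt z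
        (hρ1.differentiable (by norm_num) z).hasFDerivAt
    rw [hcav, D_mul d1 d2'.differentiableAt]
    have e2 : D ν (fun z => (pint S U (fun _ => 1) z)⁻¹) z =
        ((pint S U (fun _ => 1) z) ^ 2)⁻¹ * pint S U (D (ν : E) U) z := by
      have h4 : fderiv ℝ (pint S U (fun _ => 1)) z ν = -pint S U (D (ν : E) U) z := hDρ' z ν
      simp only [D]
      rw [d2'.fderiv, smul_apply, h4]
      simp only [smul_eq_mul]
      ring
    have e3 : D ν (pint S U f) z = pint S U (D (ν : E) f) z -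
          pint S U (fun x => f x * D (ν : E) U x) z := by
      rw [hDf z ν, ← pint_sub S hU (hDfg _) (hfg.mul (gc_D hU _))]
    rw [e2, e3]
    unfold cav
    have := (hρ0 z).ne'
    field_simp
    ring

end Pool.Agent.H84.Sym
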